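import Mathlib
import Pool.Agent.Q307.LU.Main
import Pool.Agent.Q307.LU.Card
import Pool.Agent.Q307.LU.Final

/-!
# It is consistent that `cov(M)` is singular and some `cov(M)`-Luzin set is a small union

Let `κ` be a strong limit cardinal of cofinality `ω₁` (for instance `ℶ_{ω₁}`) and add `κ` Cohen
reals, called `c_i` (`i < ω₁`) and `d_x` (`x < κ`). Let `g : κ → ω₁` be such that the union of
countably many fibres of `g` always has size less than `κ`. Let `e_x` be the real `d_x`, changed
so that it differs from `c_{g(x)}` everywhere. Every `e_x` is in one of the `ω₁` many closed nowhere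
dense sets of the reals which are everywhere different from `c_i`. If `T` is the code of a meager
set in the extension, it depends on countably many of the Cohen reals only, and `e_x` is Cohen
generic over `T` unless `d_x` or `c_{g(x)}` is among these; so fewer than `κ` of the `e_x` are in
the meager set. Similarly `cov(M) ≥ κ`, and `cov(M) ≤ κ` since the continuum is `κ`.
-/

set_option autoImplicit false

namespace Pool.Agent.Results.MP_54b694_lc.SmallUnion

open Cardinal Pool.Agent.Helper669.Forcing Pool.Agent.Q307.LU

/-- There are strong limit cardinals of cofinality `ℵ₁`, and for each such cardinal `κ` there is a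
forcing notion `P` such that every condition forces: all cardinals are preserved, `κ` is singular,
`cov(M) = κ`, and there is a `κ`-Luzin set which is a union of fewer than `κ` meager sets. -/
theorem result : (∃ κ : Cardinal.{0}, κ.IsStrongLimit ∧ κ.ord.cof = ℵ₁) ∧
    ∀ κ : Cardinal.{0}, κ.IsStrongLimit → κ.ord.cof = ℵ₁ →
      ∃ (P : Type) (_ : Preorder P), Nonempty P ∧ ∀ p : P,
        p ∈ CardinalsPreserved.{0, 0} P ∧ p ∈ SingularIs P κ ∧ p ∈ CovIs P κ ∧
          p ∈ HasLuzinUnion P κ :=
  ⟨exists_cardinal, fun _ h h' => main h h'⟩

end Pool.Agent.Results.MP_54b694_lc.SmallUnion
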